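import Mathlib

/-!
# The Maker-Breaker domination game
-/

set_option autoImplicit false

namespace Pool.Agent.Helper65.MBD

/-- every vertex is in `D` or has a neighbour in `D` -/
def Dominating {V : Type} (G : SimpleGraph V) (D : Finset V) : Prop :=
  ∀ v, v ∈ D ∨ ∃ u ∈ D, G.Adj u v

/-- Dominator, to move, having picked the vertices in `D` while Staller has picked those in `S`, has a
strategy which makes the set of his vertices dominating within his next `k` moves, against every play
of Staller -/
def WinsIn {V : Type} [DecidableEq V] (G : SimpleGraph V) : ℕ → Finset V → Finset V → Prop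
  | 0, D, _ => Dominating G D
  | k + 1, D, S => Dominating G D ∨ ∃ v, v ∉ D ∧ v ∉ S ∧
      (Dominating G (insert v D) ∨ ((∃ w, w ∉ insert v D ∧ w ∉ S) ∧
        ∀ w, w ∉ insert v D → w ∉ S → WinsIn G k (insert v D) (insert w S)))

/-- the Maker-Breaker domination number: the least `m` such that Dominator, moving first, can
guarantee to win within his first `m` moves (`⊤` if there is no such `m`) -/
noncomputable def gammaMB {V : Type} [DecidableEq V] (G : SimpleGraph V) : ℕ∞ :=
  sInf {k : ℕ∞ | ∃ m : ℕ, k = m ∧ WinsIn G m ∅ ∅}

end Pool.Agent.Helper65.MBD
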