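import Pool.Agent.Helper65.MBD.Tab

set_option autoImplicit false

namespace Pool.Agent.Helper65.MBD

lemma fr_iff {X Y x : ℕ} : fr X Y x = true ↔ x < 14 ∧ X.testBit x = false ∧ Y.testBit x = false := by
  unfold fr
  simp [and_assoc]

lemma st_testBit (X x a : ℕ) : (st X x).testBit a = (X.testBit a || decide (x = a)) := by
  unfold st
  rw [Nat.testBit_or, Nat.testBit_two_pow]

lemma swB_sound (c : Bool) (tb : List (ℕ × ℕ × ℕ)) : ∀ (f X Y : ℕ), swB c tb f X Y = true →
    SW c f X Y := by
  have himm : ∀ X Y, immB c X Y = true → ∃ x, fr X Y x = true ∧ clb c (st X x) = true := by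
    intro X Y h
    unfold immB at h
    rw [List.any_eq_true] at h
    obtain ⟨x, -, hx⟩ := h
    rw [Bool.and_eq_true] at hx
    exact ⟨x, hx.1, hx.2⟩
  intro f
  induction f with
  | zero => intro X Y h; exact himm X Y h
  | succ f ih =>
    intro X Y h
    rw [swB, Bool.or_eq_true] at h
    rcases h with h | h
    · exact Or.inl (himm X Y h)
    · rw [Bool.and_eq_true, Bool.and_eq_true, List.all_eq_true] at h
      refine Or.inr ⟨look tb X Y, h.1.1, ih _ _ h.1.2, fun y hy => ?_⟩
      have h2 := h.2 y (List.mem_range.2 (fr_iff.1 hy).1)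
      rw [hy] at h2
      exact ih _ _ (by simpa using h2)

lemma stB_sound (tb : List (ℕ × ℕ × ℕ)) : ∀ (r X Y : ℕ), stB tb r X Y = true → ST r X Y := by
  intro r
  induction r with
  | zero => intro X Y _; exact trivial
  | succ r ih =>
    intro X Y h
    rw [stB, Bool.or_eq_true] at h
    rcases h with h | h
    · exact Or.inl (swB_sound _ _ _ _ _ h)
    · rw [Bool.and_eq_true, Bool.and_eq_true, List.all_eq_true] at h
      refine Or.inr ⟨look tb X Y, h.1.1, swB_sound _ _ _ _ _ h.1.2, fun y hy => ?_⟩
      have h2 := h.2 y (List.mem_range.2 (fr_iff.1 hy).1)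
      rw [hy] at h2
      exact ih _ _ (by simpa using h2)

/-- the pairing strategy -/
lemma pds (m : ℕ → ℕ) (hm : ∀ a, a < 14 → m a < 14 ∧ m (m a) = a ∧ m a ≠ a) :
    ∀ (n X Y : ℕ), ((Finset.range 14).filter (fun a => fr X Y a = true)).card ≤ n →
    (∀ a, fr X Y a = true → fr X Y (m a) = true) →
    (∀ u, u < 14 → u ≠ 12 → (∃ a, a < 14 ∧ (N u).testBit a = true ∧ Y.testBit a = true) ∨
      ∃ a, fr X Y a = true ∧ (N u).testBit a = true ∧ (N u).testBit (m a) = true) →
    DW X Y := by
  intro n
  induction n with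
  | zero =>
    intro X Y hn _ hc
    have hno : ∀ a, fr X Y a = false := by
      intro a
      by_contra ha
      rw [Bool.not_eq_false] at ha
      have : a ∈ (Finset.range 14).filter (fun a => fr X Y a = true) :=
        Finset.mem_filter.2 ⟨Finset.mem_range.2 (fr_iff.1 ha).1, ha⟩
      rw [Finset.card_eq_zero.1 (Nat.le_zero.1 hn)] at this
      exact absurd this (Finset.notMem_empty a)
    refine DW.done X Y hno fun u hu hu2 => ?_
    rcases hc u hu hu2 with h | ⟨a, ha, -⟩
    · exact h
    · rw [hno a] at ha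
      exact absurd ha (by simp)
  | succ n ih =>
    intro X Y hn hp hc
    by_cases hex : ∃ x0, fr X Y x0 = true
    · obtain ⟨x0, hx0⟩ := hex
      have hf' : ∀ x, fr X Y x = true → ∀ a, fr (st X x) (st Y (m x)) a = true ↔
          fr X Y a = true ∧ a ≠ x ∧ a ≠ m x := by
        intro x _ a
        rw [fr_iff, fr_iff, st_testBit, st_testBit]
        simp only [Bool.or_eq_false_iff, decide_eq_false_iff_not]
        constructor
        · rintro ⟨h1, ⟨h2, h3⟩, h4, h5⟩
          exact ⟨⟨h1, h2, h4⟩, fun h => h3 h.symm, fun h => h5 h.symm⟩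
        · rintro ⟨⟨h1, h2, h3⟩, h4, h5⟩
          exact ⟨h1, ⟨h2, fun h => h4 h.symm⟩, h3, fun h => h5 h.symm⟩
      refine DW.step X Y m x0 hx0 ?_ ?_
      · intro x hx
        have h1 := hp x hx
        rw [fr_iff] at h1 ⊢
        rw [st_testBit]
        refine ⟨h1.1, ?_, h1.2.2⟩
        rw [h1.2.1]
        have := (hm x (fr_iff.1 hx).1).2.2
        simp [this.symm]
      · intro x hx
        apply ih
        · have hlt : ((Finset.range 14).filter (fun a => fr (st X x) (st Y (m x)) a = true)).card <
              ((Finset.range 14).filter (fun a => fr X Y a = true)).card := by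
            apply Finset.card_lt_card
            rw [Finset.ssubset_iff_of_subset]
            · refine ⟨x, Finset.mem_filter.2 ⟨Finset.mem_range.2 (fr_iff.1 hx).1, hx⟩, ?_⟩
              rw [Finset.mem_filter]
              intro h
              exact ((hf' x hx x).1 h.2).2.1 rfl
            · intro a ha
              rw [Finset.mem_filter] at ha ⊢
              exact ⟨ha.1, ((hf' x hx a).1 ha.2).1⟩
          omega
        · intro a ha
          rw [hf' x hx] at ha ⊢
          have h14 := (fr_iff.1 ha.1).1
          refine ⟨hp a ha.1, fun h => ha.2.2 ?_, fun h => ha.2.1 ?_⟩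
          · rw [← h, (hm a h14).2.1]
          · have := congrArg m h
            rwa [(hm a h14).2.1, (hm x (fr_iff.1 hx).1).2.1] at this
        · intro u hu hu2
          rcases hc u hu hu2 with ⟨a, ha, ha1, ha2⟩ | ⟨a, ha, ha1, ha2⟩
          · refine Or.inl ⟨a, ha, ha1, ?_⟩
            rw [st_testBit, ha2]
            rfl
          · have h14 := (fr_iff.1 ha).1
            by_cases h1 : a = x
            · refine Or.inl ⟨m x, (hm x (fr_iff.1 hx).1).1, by rw [← h1]; exact ha2, ?_⟩
              rw [st_testBit]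
              simp
            · by_cases h2 : a = m x
              · refine Or.inl ⟨a, h14, ha1, ?_⟩
                rw [st_testBit, h2]
                simp
              · refine Or.inr ⟨a, (hf' x hx a).2 ⟨ha, h1, h2⟩, ha1, ha2⟩
    · have hno : ∀ a, fr X Y a = false := by
        intro a
        by_contra ha
        rw [Bool.not_eq_false] at ha
        exact hex ⟨a, ha⟩
      refine DW.done X Y hno fun u hu hu2 => ?_
      rcases hc u hu hu2 with h | ⟨a, ha, -⟩
      · exact h
      · rw [hno a] at ha
        exact absurd ha (by simp)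

lemma pdsB_sound (m : List ℕ) (X Y : ℕ) (h : pdsB m X Y = true) : DW X Y := by
  unfold pdsB at h
  rw [Bool.and_eq_true, List.all_eq_true, List.all_eq_true] at h
  obtain ⟨h1, h2⟩ := h
  refine pds (fun a => m.getD a 99) ?_ 14 X Y ?_ ?_ ?_
  · intro a ha
    have := h1 a (List.mem_range.2 ha)
    simp only [Bool.and_eq_true, decide_eq_true_eq, beq_iff_eq, bne_iff_ne] at this
    exact ⟨this.1.1.1, this.1.1.2, this.1.2⟩
  · exact (Finset.card_filter_le _ _).trans (by simp)
  · intro a ha
    have := h1 a (List.mem_range.2 (fr_iff.1 ha).1)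
    rw [Bool.and_eq_true, ha] at this
    simpa using this.2
  · intro u hu hu2
    have := h2 u (List.mem_range.2 hu)
    rw [Bool.or_eq_true, Bool.or_eq_true] at this
    rcases this with (h | h) | h
    · exact absurd (by simpa using h) hu2
    · rw [List.any_eq_true] at h
      obtain ⟨a, ha, hb⟩ := h
      rw [Bool.and_eq_true] at hb
      exact Or.inl ⟨a, List.mem_range.1 ha, hb.1, hb.2⟩
    · rw [List.any_eq_true] at h
      obtain ⟨a, ha, hb⟩ := h
      rw [Bool.and_eq_true, Bool.and_eq_true] at hb
      exact Or.inr ⟨a, hb.1.1, hb.1.2, hb.2⟩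

lemma dwB_sound (rt : List (ℕ × ℕ × ℕ)) (pt : List (ℕ × ℕ × List ℕ)) : ∀ (f X Y : ℕ),
    dwB rt pt f X Y = true → DW X Y := by
  intro f
  induction f with
  | zero => intro X Y h; exact pdsB_sound _ _ _ h
  | succ f ih =>
    intro X Y h
    rw [dwB, Bool.or_eq_true] at h
    rcases h with h | h
    · exact pdsB_sound _ _ _ h
    · rw [Bool.and_eq_true, List.all_eq_true, List.any_eq_true] at h
      obtain ⟨⟨x0, -, hx0⟩, h2⟩ := h
      have h3 : ∀ x, fr X Y x = true → fr (st X x) Y (look rt (st X x) Y) = true ∧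
          dwB rt pt f (st X x) (st Y (look rt (st X x) Y)) = true := by
        intro x hx
        have := h2 x (List.mem_range.2 (fr_iff.1 hx).1)
        rw [hx] at this
        simpa using this
      exact DW.step X Y (fun x => look rt (st X x) Y) x0 hx0 (fun x hx => (h3 x hx).1)
        (fun x hx => ih _ _ (h3 x hx).2)

theorem sw_C : SW true 8 0 0 := swB_sound true tbC 8 0 0 chk_C

theorem st_B : ST 7 0 0 := stB_sound tbB 7 0 0 chk_B

theorem dw_D : DW 0 0 := dwB_sound rtT ptT 7 0 0 chk_D

end Pool.Agent.Helper65.MBD
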