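import Pool.Agent.Helper65.MBD.Defs
import Pool.Agent.Helper65.MBD.Sound

set_option autoImplicit false

namespace Pool.Agent.Helper65.MBD

lemma N_symm : ∀ a : Fin 14, ∀ b : Fin 14, (N a).testBit b = (N b).testBit a := by decide +kernel

lemma N_self : ∀ a : Fin 14, (N a).testBit a = true := by decide +kernel

/-- the vertices: a centre and `c` copies of `{0, ..., 13}` -/
abbrev VV (c : ℕ) : Type := Option (Fin c × Fin 14)

/-- the adjacency relation -/
def adjP {c : ℕ} : VV c → VV c → Prop
  | none, none => False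
  | none, some p => p.2 = 12
  | some p, none => p.2 = 12
  | some p, some q => p.1 = q.1 ∧ p.2 ≠ q.2 ∧ (N p.2).testBit q.2 = true

/-- the centre is joined to the vertex 12 of each copy of `H` -/
def GG (c : ℕ) : SimpleGraph (VV c) where
  Adj := adjP
  symm := ⟨by
    rintro (_ | p) (_ | q) h
    · exact h
    · exact h
    · exact h
    · exact ⟨h.1.symm, h.2.1.symm, by rw [N_symm]; exact h.2.2⟩⟩
  loopless := ⟨by
    rintro (_ | p) h
    · exact h
    · exact h.2.1 rfl⟩

variable {c : ℕ}

/-- `X`, `Y` are the bit masks of the vertices of the copy `i` which belong to `S`, `D` -/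
def Rep (D S : Finset (VV c)) (i : Fin c) (X Y : ℕ) : Prop :=
  ∀ a : Fin 14, (some (i, a) ∈ S ↔ X.testBit a = true) ∧ (some (i, a) ∈ D ↔ Y.testBit a = true)

lemma rep_fr {D S : Finset (VV c)} {i : Fin c} {X Y : ℕ} (h : Rep D S i X Y) (a : Fin 14) :
    fr X Y a = true ↔ some (i, a) ∉ S ∧ some (i, a) ∉ D := by
  rw [fr_iff, (h a).1, (h a).2]
  simp

lemma rep_insS {D S : Finset (VV c)} {i : Fin c} {X Y : ℕ} (h : Rep D S i X Y) (x : Fin 14) :
    Rep D (insert (some (i, x)) S) i (st X x) Y := by
  intro a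
  refine ⟨?_, (h a).2⟩
  rw [Finset.mem_insert, (h a).1, st_testBit, Bool.or_eq_true, decide_eq_true_eq, or_comm]
  apply or_congr Iff.rfl
  rw [Option.some_inj, Prod.mk.injEq]
  constructor
  · rintro ⟨-, h⟩
    rw [h]
  · intro h
    exact ⟨rfl, (Fin.ext h).symm⟩

lemma rep_insD {D S : Finset (VV c)} {i : Fin c} {X Y : ℕ} (h : Rep D S i X Y) (x : Fin 14) :
    Rep (insert (some (i, x)) D) S i X (st Y x) := by
  intro a
  refine ⟨(h a).1, ?_⟩
  rw [Finset.mem_insert, (h a).2, st_testBit, Bool.or_eq_true, decide_eq_true_eq, or_comm]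
  apply or_congr Iff.rfl
  rw [Option.some_inj, Prod.mk.injEq]
  constructor
  · rintro ⟨-, h⟩
    rw [h]
  · intro h
    exact ⟨rfl, (Fin.ext h).symm⟩

lemma rep_othS {D S : Finset (VV c)} {i : Fin c} {X Y : ℕ} (h : Rep D S i X Y) (v : VV c)
    (hv : ∀ a, v ≠ some (i, a)) : Rep D (insert v S) i X Y := by
  intro a
  refine ⟨?_, (h a).2⟩
  rw [Finset.mem_insert, (h a).1]
  exact or_iff_right (fun h => hv a h.symm)

lemma rep_othD {D S : Finset (VV c)} {i : Fin c} {X Y : ℕ} (h : Rep D S i X Y) (v : VV c)
    (hv : ∀ a, v ≠ some (i, a)) : Rep (insert v D) S i X Y := by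
  intro a
  refine ⟨(h a).1, ?_⟩
  rw [Finset.mem_insert, (h a).2]
  exact or_iff_right (fun h => hv a h.symm)

lemma dom_wins {V : Type} [DecidableEq V] {G : SimpleGraph V} {D : Finset V} (h : Dominating G D)
    (k : ℕ) (S : Finset V) : WinsIn G k D S := by
  cases k with
  | zero => exact h
  | succ k => exact Or.inl h

/-- Staller has picked a closed neighbourhood -/
lemma claimed {V : Type} [DecidableEq V] {G : SimpleGraph V} (u : V) : ∀ (k : ℕ) (D S : Finset V),
    (∀ v, (v = u ∨ G.Adj v u) → v ∈ S) → (∀ v ∈ D, v ∉ S) → ¬WinsIn G k D S := by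
  have hnd : ∀ (D S : Finset V), (∀ v, (v = u ∨ G.Adj v u) → v ∈ S) → (∀ v ∈ D, v ∉ S) →
      ¬Dominating G D := by
    intro D S h1 h2 h3
    rcases h3 u with h | ⟨w, hw, hwu⟩
    · exact h2 u h (h1 u (Or.inl rfl))
    · exact h2 w hw (h1 w (Or.inr hwu))
  intro k
  induction k with
  | zero => intro D S h1 h2 h3; exact hnd D S h1 h2 h3
  | succ k ih =>
    rintro D S h1 h2 (h3 | ⟨v, hvD, hvS, h3⟩)
    · exact hnd D S h1 h2 h3
    · have h4 : ∀ v' ∈ insert v D, v' ∉ S := by
        intro v' hv'
        rcases Finset.mem_insert.1 hv' with rfl | h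
        · exact hvS
        · exact h2 v' h
      rcases h3 with h3 | ⟨⟨w, hw1, hw2⟩, h3⟩
      · exact hnd _ S h1 h4 h3
      · refine ih (insert v D) (insert w S) (fun v' hv' => Finset.mem_insert_of_mem (h1 v' hv')) ?_
          (h3 w hw1 hw2)
        intro v' hv' hv''
        rcases Finset.mem_insert.1 hv'' with rfl | h
        · exact hw1 hv'
        · exact h4 v' hv' h

lemma disj_ins {D S : Finset (VV c)} (h : ∀ v ∈ D, v ∉ S) {w : VV c} (hw : w ∉ D) :
    ∀ v ∈ D, v ∉ insert w S := by
  intro v hv hv'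
  rcases Finset.mem_insert.1 hv' with rfl | h'
  · exact hw hv
  · exact h v hv h'

lemma disj_insD {D S : Finset (VV c)} (h : ∀ v ∈ D, v ∉ S) {w : VV c} (hw : w ∉ S) :
    ∀ v ∈ insert w D, v ∉ S := by
  intro v hv hv'
  rcases Finset.mem_insert.1 hv with rfl | h'
  · exact hw hv'
  · exact h v h' hv'

lemma clb_spec {b : Bool} {X : ℕ} (h : clb b X = true) : ∃ u : Fin 14, (b = true ∨ u ≠ 12) ∧
    ∀ a : Fin 14, (N u).testBit a = true → X.testBit a = true := by
  unfold clb at h
  rw [List.any_eq_true] at h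
  obtain ⟨u, hu, h⟩ := h
  rw [Bool.and_eq_true, Bool.or_eq_true, beq_iff_eq, bne_iff_ne] at h
  refine ⟨⟨u, List.mem_range.1 hu⟩, ?_, ?_⟩
  · rcases h.1 with h1 | h1
    · exact Or.inl h1
    · exact Or.inr fun h2 => h1 (congrArg Fin.val h2)
  · intro a ha
    have h3 := congrArg (fun n => n.testBit (a : ℕ)) h.2
    simp only [Nat.testBit_and] at h3
    have ha' : (N u).testBit (a : ℕ) = true := ha
    rw [ha', Bool.true_and] at h3
    exact h3

/-- Staller, to move, wins in the copy `i` -/
lemma sw_wins (b : Bool) (i : Fin c) : ∀ (f X Y : ℕ) (D S : Finset (VV c)),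
    (b = true → none ∈ S) → Rep D S i X Y → (∀ v ∈ D, v ∉ S) → SW b f X Y →
    ∃ w, w ∉ D ∧ w ∉ S ∧ ∀ k, ¬WinsIn (GG c) k D (insert w S) := by
  have himm : ∀ (X Y : ℕ) (D S : Finset (VV c)), (b = true → none ∈ S) → Rep D S i X Y →
      (∀ v ∈ D, v ∉ S) → (∃ x, fr X Y x = true ∧ clb b (st X x) = true) →
      ∃ w, w ∉ D ∧ w ∉ S ∧ ∀ k, ¬WinsIn (GG c) k D (insert w S) := by
    rintro X Y D S hb hR hd ⟨x, hx, hcl⟩
    have hx14 := (fr_iff.1 hx).1
    have hxf := (rep_fr hR ⟨x, hx14⟩).1 hx
    refine ⟨some (i, ⟨x, hx14⟩), hxf.2, hxf.1, fun k => ?_⟩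
    obtain ⟨u, hu, hN⟩ := clb_spec hcl
    have hR' := rep_insS hR ⟨x, hx14⟩
    refine claimed (some (i, u)) k D _ ?_ (disj_ins hd hxf.2)
    rintro (_ | ⟨j, a⟩) hv
    · rcases hv with hv | hv
      · exact absurd hv (by simp)
      · have h12 : u = 12 := hv
        rcases hu with hu | hu
        · exact Finset.mem_insert_of_mem (hb hu)
        · exact absurd h12 hu
    · rcases hv with hv | hv
      · rw [hv]
        exact (hR' u).1.2 (hN u (N_self u))
      · obtain ⟨h1, h2, h3⟩ := hv
        dsimp only at h1 h3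
        subst h1
        rw [N_symm] at h3
        exact (hR' a).1.2 (hN a h3)
  intro f
  induction f with
  | zero => intro X Y D S hb hR hd h; exact himm X Y D S hb hR hd h
  | succ f ih =>
    rintro X Y D S hb hR hd (h | ⟨x, hx, hpass, hy⟩)
    · exact himm X Y D S hb hR hd h
    · have hx14 := (fr_iff.1 hx).1
      have hxf := (rep_fr hR ⟨x, hx14⟩).1 hx
      refine ⟨some (i, ⟨x, hx14⟩), hxf.2, hxf.1, fun k => ?_⟩
      have hR' := rep_insS hR ⟨x, hx14⟩
      have hd' := disj_ins hd hxf.2
      have hb' : b = true → none ∈ insert (some (i, (⟨x, hx14⟩ : Fin 14))) S :=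
        fun h => Finset.mem_insert_of_mem (hb h)
      have hnd : ¬Dominating (GG c) D := by
        obtain ⟨w', -, -, hw'⟩ := ih _ _ D _ hb' hR' hd' hpass
        exact fun h => hw' 0 (dom_wins h 0 _)
      cases k with
      | zero => exact hnd
      | succ k =>
        rintro (h | ⟨v, hvD, hvS, h⟩)
        · exact hnd h
        · have key : ∃ w, w ∉ insert v D ∧ w ∉ insert (some (i, (⟨x, hx14⟩ : Fin 14))) S ∧
              ∀ k, ¬WinsIn (GG c) k (insert v D)
                (insert w (insert (some (i, (⟨x, hx14⟩ : Fin 14))) S)) := by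
            have hdv := disj_insD hd' hvS
            by_cases hv : ∃ a, v = some (i, a)
            · obtain ⟨a, rfl⟩ := hv
              have hfa : fr (st X x) Y a = true := (rep_fr hR' a).2 ⟨hvS, hvD⟩
              exact ih _ _ _ _ hb' (rep_insD hR' a) hdv (hy a hfa)
            · exact ih _ _ _ _ hb' (rep_othD hR' v (fun a h => hv ⟨a, h⟩)) hdv hpass
          obtain ⟨w', hw1, hw2, hw3⟩ := key
          rcases h with h | ⟨-, h⟩
          · exact hw3 0 (dom_wins h 0 _)
          · exact hw3 k (h w' hw1 hw2)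

/-- Dominator has to make `r` moves in the active copy and 7 moves in each fresh copy -/
lemma st_lower : ∀ (k r X Y : ℕ) (D S : Finset (VV c)) (i : Fin c) (F : Finset (Fin c)),
    i ∉ F → none ∈ D → (∀ v ∈ D, v ∉ S) → Rep D S i X Y → (∀ j ∈ F, Rep D S j 0 0) →
    ST r X Y → k < r + 7 * F.card →
    ∃ w, w ∉ D ∧ w ∉ S ∧ ¬WinsIn (GG c) k D (insert w S) := by
  intro k
  induction k with
  | zero =>
    have main : ∀ (r X Y : ℕ) (D S : Finset (VV c)) (i : Fin c),
        (∀ v ∈ D, v ∉ S) → Rep D S i X Y → ST (r + 1) X Y →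
        ∃ w, w ∉ D ∧ w ∉ S ∧ ¬WinsIn (GG c) 0 D (insert w S) := by
      rintro r X Y D S i hd hR (h | ⟨x, hx, hpass, -⟩)
      · obtain ⟨w, h1, h2, h3⟩ := sw_wins false i 8 X Y D S (by simp) hR hd h
        exact ⟨w, h1, h2, h3 0⟩
      · have hx14 := (fr_iff.1 hx).1
        have hxf := (rep_fr hR ⟨x, hx14⟩).1 hx
        refine ⟨some (i, ⟨x, hx14⟩), hxf.2, hxf.1, ?_⟩
        obtain ⟨w', -, -, hw'⟩ := sw_wins false i 8 _ _ D _ (by simp) (rep_insS hR ⟨x, hx14⟩)
          (disj_ins hd hxf.2) hpass
        exact fun h => hw' 0 (dom_wins h 0 _)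
    intro r X Y D S i F _ _ hd hR hF hST hk
    cases r with
    | zero =>
      have hFne : F.Nonempty := by
        rw [← Finset.card_pos]
        omega
      obtain ⟨j, hj⟩ := hFne
      exact main 6 0 0 D S j hd (hF j hj) st_B
    | succ r => exact main r X Y D S i hd hR hST
  | succ k ih =>
    have main : ∀ (r X Y : ℕ) (D S : Finset (VV c)) (i : Fin c) (F : Finset (Fin c)),
        i ∉ F → none ∈ D → (∀ v ∈ D, v ∉ S) → Rep D S i X Y → (∀ j ∈ F, Rep D S j 0 0) →
        ST (r + 1) X Y → k + 1 < r + 1 + 7 * F.card →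
        ∃ w, w ∉ D ∧ w ∉ S ∧ ¬WinsIn (GG c) (k + 1) D (insert w S) := by
      rintro r X Y D S i F hiF hn hd hR hF (h | ⟨x, hx, hpass, hy⟩) hk
      · obtain ⟨w, h1, h2, h3⟩ := sw_wins false i 8 X Y D S (by simp) hR hd h
        exact ⟨w, h1, h2, h3 _⟩
      · have hx14 := (fr_iff.1 hx).1
        have hxf := (rep_fr hR ⟨x, hx14⟩).1 hx
        refine ⟨some (i, ⟨x, hx14⟩), hxf.2, hxf.1, ?_⟩
        have hR' := rep_insS hR ⟨x, hx14⟩
        have hd' := disj_ins hd hxf.2
        have hF' : ∀ j ∈ F, Rep D (insert (some (i, (⟨x, hx14⟩ : Fin 14))) S) j 0 0 := by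
          intro j hj
          refine rep_othS (hF j hj) _ fun a h => ?_
          rw [Option.some_inj, Prod.mk.injEq] at h
          exact hiF (h.1 ▸ hj)
        rintro (h | ⟨v, hvD, hvS, h⟩)
        · obtain ⟨w', -, -, hw'⟩ := sw_wins false i 8 _ _ D _ (by simp) hR' hd' hpass
          exact hw' 0 (dom_wins h 0 _)
        · have hdv := disj_insD hd' hvS
          have key : ∃ w, w ∉ insert v D ∧ w ∉ insert (some (i, (⟨x, hx14⟩ : Fin 14))) S ∧
              ¬WinsIn (GG c) k (insert v D)
                (insert w (insert (some (i, (⟨x, hx14⟩ : Fin 14))) S)) := by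
            by_cases hv : ∃ a, v = some (i, a)
            · obtain ⟨a, rfl⟩ := hv
              have hfa : fr (st X x) Y a = true := (rep_fr hR' a).2 ⟨hvS, hvD⟩
              refine ih r _ _ _ _ i F hiF (Finset.mem_insert_of_mem hn) hdv (rep_insD hR' a) ?_
                (hy a hfa) (by omega)
              intro j hj
              refine rep_othD (hF' j hj) _ fun b h => ?_
              rw [Option.some_inj, Prod.mk.injEq] at h
              exact hiF (h.1 ▸ hj)
            · obtain ⟨w', h1, h2, h3⟩ := sw_wins false i 8 _ _ (insert v D) _ (by simp)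
                (rep_othD hR' v (fun a h => hv ⟨a, h⟩)) hdv hpass
              exact ⟨w', h1, h2, h3 k⟩
          obtain ⟨w', hw1, hw2, hw3⟩ := key
          rcases h with h | ⟨-, h⟩
          · exact hw3 (dom_wins h k _)
          · exact hw3 (h w' hw1 hw2)
    intro r X Y D S i F hiF hn hd hR hF hST hk
    cases r with
    | zero =>
      have hFne : F.Nonempty := by
        rw [← Finset.card_pos]
        omega
      obtain ⟨j, hj⟩ := hFne
      have hcard := Finset.card_erase_of_mem hj
      have hpos : 0 < F.card := Finset.card_pos.2 ⟨j, hj⟩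
      exact main 6 0 0 D S j (F.erase j) (Finset.notMem_erase j F) hn hd (hF j hj)
        (fun l hl => hF l (Finset.mem_of_mem_erase hl)) st_B (by omega)
    | succ r => exact main r X Y D S i F hiF hn hd hR hF hST hk

lemma rep_zero {D S : Finset (VV c)} {i : Fin c} (h : ∀ a, some (i, a) ∉ S ∧ some (i, a) ∉ D) :
    Rep D S i 0 0 := by
  intro a
  simp [(h a).1, (h a).2]

/-- the lower bound -/
lemma lower (hc : 3 ≤ c) : ∀ k, k ≤ 7 * c → ¬WinsIn (GG c) k ∅ ∅ := by
  have hnd : ¬Dominating (GG c) ∅ := by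
    intro h
    rcases h none with h | ⟨u, hu, -⟩
    · exact absurd h (Finset.notMem_empty _)
    · exact absurd hu (Finset.notMem_empty _)
  intro k hk
  cases k with
  | zero => exact hnd
  | succ k =>
    rintro (h | ⟨v, -, -, h⟩)
    · exact hnd h
    · match v, h with
      | none, h =>
        have i0 : Fin c := ⟨0, by omega⟩
        obtain ⟨w, h1, h2, h3⟩ := st_lower (c := c) k 7 0 0 (insert none ∅) ∅ i0
          (Finset.univ.erase i0) (Finset.notMem_erase _ _) (by simp) (by simp)
          (rep_zero (by simp)) (fun j _ => rep_zero (by simp)) st_B (by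
            rw [Finset.card_erase_of_mem (Finset.mem_univ _), Finset.card_univ, Fintype.card_fin]
            omega)
        rcases h with h | ⟨-, h⟩
        · exact h3 (dom_wins h k _)
        · exact h3 (h w h1 h2)
      | some (i, a), h =>
        have hpick : ∀ i' : Fin c, ∃ j : Fin c, j ≠ i ∧ j ≠ i' := by
          intro i'
          have hcard : ({i, i'} : Finset (Fin c)).card < (Finset.univ : Finset (Fin c)).card := by
            rw [Finset.card_univ, Fintype.card_fin]
            exact lt_of_le_of_lt Finset.card_le_two (by omega)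
          obtain ⟨j, -, hj⟩ := Finset.exists_mem_notMem_of_card_lt_card hcard
          simp only [Finset.mem_insert, Finset.mem_singleton, not_or] at hj
          exact ⟨j, hj.1, hj.2⟩
        have hdis : ∀ v ∈ (insert (some (i, a)) ∅ : Finset (VV c)), v ∉ (insert none ∅ : Finset (VV c)) := by
          intro v hv
          simp only [insert_empty_eq, Finset.mem_singleton] at hv ⊢
          rw [hv]
          simp
        have hnone : (none : VV c) ∉ (insert (some (i, a)) ∅ : Finset (VV c)) := by simp
        obtain ⟨j, hj1, -⟩ := hpick i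
        have hR : Rep (insert (some (i, a)) ∅ : Finset (VV c)) (insert none ∅) j 0 0 :=
          rep_zero (by
            intro b
            simp only [insert_empty_eq, Finset.mem_singleton, reduceCtorEq, not_false_eq_true,
              true_and, Option.some_inj, Prod.mk.injEq, not_and]
            exact fun h => absurd h hj1)
        obtain ⟨w, -, -, h3⟩ := sw_wins true j 8 0 0 _ _ (fun _ => by simp) hR hdis sw_C
        have hnd1 : ¬Dominating (GG c) (insert (some (i, a)) ∅) := fun h => h3 0 (dom_wins h 0 _)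
        rcases h with h | ⟨-, h⟩
        · exact hnd1 h
        · have h4 := h none hnone (by simp)
          cases k with
          | zero => exact hnd1 h4
          | succ k =>
            rcases h4 with h4 | ⟨v', hv'D, hv'S, h4⟩
            · exact hnd1 h4
            · have hdis' := disj_insD hdis hv'S
              have key : ∃ w, w ∉ insert v' (insert (some (i, a)) ∅ : Finset (VV c)) ∧
                  w ∉ (insert none ∅ : Finset (VV c)) ∧ ∀ k, ¬WinsIn (GG c) k
                    (insert v' (insert (some (i, a)) ∅)) (insert w (insert none ∅)) := by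
                match v', hv'S, hdis' with
                | none, hv'S, _ => exact absurd (by simp) hv'S
                | some (i', a'), _, hdis' =>
                  obtain ⟨l, hl1, hl2⟩ := hpick i'
                  refine sw_wins true l 8 0 0 _ _ (fun _ => by simp) (rep_zero ?_) hdis' sw_C
                  intro b
                  simp only [insert_empty_eq, Finset.mem_singleton, reduceCtorEq,
                    not_false_eq_true, true_and, Finset.mem_insert, Option.some_inj,
                    Prod.mk.injEq, not_or, not_and]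
                  exact ⟨fun h => absurd h hl2, fun h => absurd h hl1⟩
              obtain ⟨w', hw1, hw2, hw3⟩ := key
              rcases h4 with h4 | ⟨-, h4⟩
              · exact hw3 0 (dom_wins h4 0 _)
              · exact hw3 k (h4 w' hw1 hw2)

end Pool.Agent.Helper65.MBD
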