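import Mathlib

/-!
# The Maker-Breaker domination game on a graph built from copies of a graph with 14 vertices

Computer certificates (strategies) for one copy, checked by the kernel.
-/

set_option autoImplicit false

namespace Pool.Agent.Helper65.MBD

/-! ## One copy: positions are pairs of bit masks (`X` Staller, `Y` Dominator) -/

/-- closed neighbourhoods of the graph `H` on `{0, ..., 13}` with the edges
0-6, 0-7, 1-6, 1-13, 2-9, 2-12, 2-13, 3-7, 3-10, 3-11, 4-7, 4-8, 4-13, 5-8, 5-9, 5-10, 5-11 -/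
def nbL : List ℕ :=
  [193, 8258, 12804, 3208, 8592, 3872, 67, 153, 304, 548, 1064, 2088, 4100, 8214]

/-- the closed neighbourhood of `u` as a bit mask -/
def N (u : ℕ) : ℕ := nbL.getD u 0

/-- `x` is a vertex which has not been picked -/
def fr (X Y x : ℕ) : Bool := decide (x < 14) && !X.testBit x && !Y.testBit x

/-- `X ∪ {x}` -/
def st (X x : ℕ) : ℕ := X ||| 2 ^ x

/-- some closed neighbourhood (of a vertex other than 12 if `c = false`) is contained in `X` -/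
def clb (c : Bool) (X : ℕ) : Bool :=
  (List.range 14).any fun u => (c || u != 12) && (N u &&& X == N u)

/-- Staller, to move, wins within `f + 1` moves, Dominator may pass -/
def SW (c : Bool) : ℕ → ℕ → ℕ → Prop
  | 0, X, Y => ∃ x, fr X Y x = true ∧ clb c (st X x) = true
  | f + 1, X, Y => (∃ x, fr X Y x = true ∧ clb c (st X x) = true) ∨
      ∃ x, fr X Y x = true ∧ SW c f (st X x) Y ∧
        ∀ y, fr (st X x) Y y = true → SW c f (st X x) (st Y y)

/-- Staller, to move, wins or forces Dominator to make `r` moves in this copy -/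
def ST : ℕ → ℕ → ℕ → Prop
  | 0, _, _ => True
  | r + 1, X, Y => SW false 8 X Y ∨ ∃ x, fr X Y x = true ∧ SW false 8 (st X x) Y ∧
        ∀ y, fr (st X x) Y y = true → ST r (st X x) (st Y y)

/-- every vertex other than 12 is dominated by `Y` -/
def dom (Y : ℕ) : Prop :=
  ∀ u, u < 14 → u ≠ 12 → ∃ a, a < 14 ∧ (N u).testBit a = true ∧ Y.testBit a = true

/-- Dominator wins if Staller moves first and no one passes -/
inductive DW : ℕ → ℕ → Prop
  | done (X Y : ℕ) (h : ∀ a, fr X Y a = false) (hd : dom Y) : DW X Y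
  | step (X Y : ℕ) (f : ℕ → ℕ) (x0 : ℕ) (h0 : fr X Y x0 = true)
      (hf : ∀ x, fr X Y x = true → fr (st X x) Y (f x) = true)
      (hd : ∀ x, fr X Y x = true → DW (st X x) (st Y (f x))) : DW X Y

/-! ## Checkers -/

def look (tb : List (ℕ × ℕ × ℕ)) (X Y : ℕ) : ℕ :=
  match tb.find? (fun t => t.1 == X && t.2.1 == Y) with
  | some t => t.2.2
  | none => 99

def lookL (tb : List (ℕ × ℕ × List ℕ)) (X Y : ℕ) : List ℕ :=
  match tb.find? (fun t => t.1 == X && t.2.1 == Y) with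
  | some t => t.2.2
  | none => []

def immB (c : Bool) (X Y : ℕ) : Bool :=
  (List.range 14).any fun x => fr X Y x && clb c (st X x)

def swB (c : Bool) (tb : List (ℕ × ℕ × ℕ)) : ℕ → ℕ → ℕ → Bool
  | 0, X, Y => immB c X Y
  | f + 1, X, Y => immB c X Y ||
      (fr X Y (look tb X Y) && swB c tb f (st X (look tb X Y)) Y &&
        (List.range 14).all (fun y => !fr (st X (look tb X Y)) Y y ||
          swB c tb f (st X (look tb X Y)) (st Y y)))

def stB (tb : List (ℕ × ℕ × ℕ)) : ℕ → ℕ → ℕ → Bool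
  | 0, _, _ => true
  | r + 1, X, Y => swB false tb 8 X Y ||
      (fr X Y (look tb X Y) && swB false tb 8 (st X (look tb X Y)) Y &&
        (List.range 14).all (fun y => !fr (st X (look tb X Y)) Y y ||
          stB tb r (st X (look tb X Y)) (st Y y)))

def pdsB (m : List ℕ) (X Y : ℕ) : Bool :=
  (List.range 14).all (fun a => decide (m.getD a 99 < 14) && (m.getD (m.getD a 99) 99 == a) &&
    (m.getD a 99 != a) && (!fr X Y a || fr X Y (m.getD a 99))) &&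
  (List.range 14).all (fun u => u == 12 ||
    (List.range 14).any (fun a => (N u).testBit a && Y.testBit a) ||
    (List.range 14).any (fun a => fr X Y a && (N u).testBit a && (N u).testBit (m.getD a 99)))

def dwB (rt : List (ℕ × ℕ × ℕ)) (pt : List (ℕ × ℕ × List ℕ)) : ℕ → ℕ → ℕ → Bool
  | 0, X, Y => pdsB (lookL pt X Y) X Y
  | f + 1, X, Y => pdsB (lookL pt X Y) X Y ||
      ((List.range 14).any (fun x => fr X Y x) && (List.range 14).all (fun x => !fr X Y x ||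
        (fr (st X x) Y (look rt (st X x) Y) &&
          dwB rt pt f (st X x) (st Y (look rt (st X x) Y)))))

/-! ## Tables -/

def tbC : List (ℕ × ℕ × ℕ) :=
  [(0,0,2), (4,4096,5), (36,4608,3)]

def tbB : List (ℕ × ℕ × ℕ) :=
  [(0,0,4), (16,0,5), (16,1,5), (16,2,5), (16,4,5), (16,8,8), (16,32,7), (16,64,5), (16,128,5),
   (16,256,0), (16,512,5), (16,1024,8), (16,2048,8), (16,4096,5), (16,8192,5), (17,256,6),
   (17,258,7), (17,260,6), (17,264,6), (17,288,6), (17,320,3), (17,384,1), (17,768,6), (17,1280,6),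
   (17,2304,6), (17,4352,6), (17,8448,6), (19,448,2), (23,8640,5), (25,448,5), (48,256,3),
   (48,257,3), (48,258,3), (48,260,3), (48,320,3), (48,384,3), (48,768,3), (48,4352,3), (48,8448,3),
   (55,9152,3), (144,32,0), (144,33,13), (144,34,0), (144,36,0), (144,40,6), (144,96,3), (144,288,0),
   (144,544,0), (144,1056,0), (144,2080,0), (144,4128,0), (144,8224,0), (152,97,10), (208,41,13),
   (272,40,13), (272,1056,7), (272,2080,7), (400,9248,0), (400,10272,0), (1176,2145,13),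
   (8336,289,1), (8464,168,1), (9368,2401,2), (9372,2403,9)]

def rtT : List (ℕ × ℕ × ℕ) :=
  [(1,0,6), (2,0,13), (3,64,3), (3,8192,6), (4,0,5), (5,64,5), (6,8192,3), (7,8256,3), (8,0,5),
   (9,64,5), (10,8192,5), (11,8256,5), (16,0,5), (17,32,6), (17,64,5), (18,32,6), (18,8192,3),
   (19,8256,3), (20,32,0), (24,32,0), (32,0,3), (33,64,3), (34,8192,3), (35,8256,3), (64,0,0),
   (66,8192,0), (80,32,0), (128,0,0), (129,64,3), (130,8192,0), (131,8256,3), (144,32,6), (256,0,4),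
   (257,64,4), (258,8192,3), (259,8256,3), (272,32,6), (512,0,2), (513,64,5), (514,8192,3),
   (515,8256,3), (528,32,0), (1024,0,3), (1025,64,3), (1026,8192,3), (1027,8256,3), (1040,32,0),
   (2048,0,3), (2049,64,3), (2050,8192,3), (2051,8256,3), (2064,32,0), (4096,0,0), (4097,64,3),
   (4098,8192,0), (4099,8256,3), (4112,32,0), (8192,0,1), (8193,64,4), (8208,32,6)]

def ptT : List (ℕ × ℕ × List ℕ) :=
  [(3,72,[1,0,9,6,13,8,3,10,5,2,7,12,11,4]), (4,32,[6,13,5,7,8,2,0,3,4,12,11,10,9,1]),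
   (5,96,[2,13,0,7,8,6,5,3,4,12,11,10,9,1]), (6,8200,[6,2,1,13,8,9,0,10,4,5,7,12,11,3]),
   (7,8264,[1,0,3,2,8,9,13,10,4,5,7,12,11,6]), (8,32,[6,13,9,5,7,3,0,4,12,2,11,10,8,1]),
   (9,96,[3,13,9,0,7,6,5,4,12,2,11,10,8,1]), (10,8224,[6,3,8,1,7,13,0,4,2,12,11,10,9,5]),
   (11,8288,[1,0,8,5,7,3,13,4,2,12,11,10,9,6]), (17,96,[4,2,1,7,0,6,5,3,13,12,11,10,9,8]),
   (18,96,[3,4,13,0,1,6,5,8,7,12,11,10,9,2]), (18,8200,[6,3,9,1,13,8,0,10,5,2,7,12,11,4]),
   (19,8264,[1,0,9,4,3,8,13,10,5,2,7,12,11,6]), (20,33,[2,13,0,10,5,4,11,8,7,12,3,6,9,1]),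
   (24,33,[3,6,13,0,5,4,1,8,7,12,11,10,9,2]), (32,8,[6,13,9,5,8,3,0,12,4,2,11,10,7,1]),
   (33,72,[3,13,9,0,8,6,5,12,4,2,11,10,7,1]), (34,8200,[6,3,9,1,8,13,0,12,4,2,11,10,7,5]),
   (35,8264,[1,0,9,5,8,3,13,12,4,2,11,10,7,6]), (64,1,[6,13,9,10,8,11,0,12,4,2,3,5,7,1]),
   (66,8193,[1,0,9,10,8,11,13,12,4,2,3,5,7,6]), (80,33,[4,13,9,10,0,6,5,8,7,2,3,12,11,1]),
   (128,1,[7,13,9,10,8,11,12,0,4,2,3,5,6,1]), (129,72,[3,13,9,0,8,10,7,6,4,2,5,12,11,1]),
   (130,8193,[1,0,9,10,8,11,12,13,4,2,3,5,6,7]), (131,8264,[1,0,9,6,10,8,3,13,5,2,4,12,11,7]),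
   (144,96,[3,2,1,0,5,4,7,6,13,12,11,10,9,8]), (256,16,[6,13,9,10,8,11,0,12,4,2,3,5,7,1]),
   (257,80,[4,7,9,10,0,11,8,1,6,2,3,5,13,12]), (258,8200,[6,3,9,1,5,4,0,12,13,2,11,10,7,8]),
   (259,8264,[1,0,9,6,5,4,3,12,13,2,11,10,7,8]), (272,96,[3,2,1,0,5,4,8,13,6,12,11,10,9,7]),
   (512,4,[7,6,9,10,8,11,1,0,4,2,3,5,13,12]), (513,96,[5,13,12,7,8,0,9,3,4,6,11,10,2,1]),
   (514,8200,[6,3,5,1,8,2,0,12,4,13,11,10,7,9]), (515,8264,[1,0,5,6,8,2,3,12,4,13,11,10,7,9]),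
   (528,33,[4,6,13,10,0,9,1,8,7,5,3,12,11,2]), (1024,8,[6,13,9,10,7,8,0,4,5,2,3,12,11,1]),
   (1025,72,[3,13,9,0,7,8,10,4,5,2,6,12,11,1]), (1026,8200,[6,3,9,1,7,8,0,4,5,2,13,12,11,10]),
   (1027,8264,[1,0,9,6,7,8,3,4,5,2,13,12,11,10]), (1040,33,[4,6,13,11,0,10,1,8,7,12,5,3,9,2]),
   (2048,8,[6,13,9,11,7,8,0,4,5,2,12,3,10,1]), (2049,72,[3,13,9,0,7,8,11,4,5,2,12,6,10,1]),
   (2050,8200,[6,3,9,1,7,8,0,4,5,2,12,13,10,11]), (2051,8264,[1,0,9,6,7,8,3,4,5,2,12,13,10,11]),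
   (2064,33,[4,6,13,10,0,11,1,8,7,12,3,5,9,2]), (4096,1,[12,13,9,10,8,11,7,6,4,2,3,5,0,1]),
   (4097,72,[3,13,9,0,7,8,12,4,5,2,11,10,6,1]), (4098,8193,[1,0,9,10,8,11,7,6,4,2,3,5,13,12]),
   (4099,8264,[1,0,9,6,7,8,3,4,5,2,11,10,13,12]), (4112,33,[4,6,13,10,0,12,1,8,7,11,3,9,5,2]),
   (8192,2,[7,13,9,10,8,11,12,0,4,2,3,5,6,1]), (8193,80,[4,7,9,10,0,11,13,1,12,2,3,5,8,6]),
   (8208,96,[3,2,1,0,5,4,13,8,7,12,11,10,9,6])]

theorem chk_C : swB true tbC 8 0 0 = true := by decide +kernel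

theorem chk_B : stB tbB 7 0 0 = true := by decide +kernel

theorem chk_D : dwB rtT ptT 7 0 0 = true := by decide +kernel

end Pool.Agent.Helper65.MBD
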