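import Pool.Agent.Helper65.MBD.Graph

set_option autoImplicit false

namespace Pool.Agent.Helper65.MBD

variable {c : ℕ}

/-- the vertices which have not been picked -/
def fre (D S : Finset (VV c)) : Finset (VV c) := Finset.univ.filter (fun v => v ∉ D ∧ v ∉ S)

lemma mem_fre {D S : Finset (VV c)} {v : VV c} : v ∈ fre D S ↔ v ∉ D ∧ v ∉ S := by
  unfold fre
  simp

lemma upper_step : ∀ (n : ℕ) (D S : Finset (VV c)), none ∈ D →
    (∀ i : Fin c, ∃ X Y, Rep D S i X Y ∧ DW X Y) → (fre D S).card ≤ 2 * n →
    Dominating (GG c) D ∨ ((∃ w, w ∉ D ∧ w ∉ S) ∧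
      ∀ w, w ∉ D → w ∉ S → WinsIn (GG c) n D (insert w S)) := by
  intro n
  induction n with
  | zero =>
    intro D S hn hI hcard
    left
    have hno : ∀ v : VV c, v ∈ D ∨ v ∈ S := by
      intro v
      by_contra h
      rw [not_or] at h
      have := mem_fre.2 h
      rw [Finset.card_eq_zero.1 (Nat.le_zero.1 hcard)] at this
      exact absurd this (Finset.notMem_empty v)
    rintro (_ | ⟨i, a⟩)
    · exact Or.inl hn
    · obtain ⟨X, Y, hR, hW⟩ := hI i
      by_cases h12 : a = 12
      · exact Or.inr ⟨none, hn, h12⟩
      · cases hW with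
        | done _ _ h hd =>
          obtain ⟨b, hb, hb1, hb2⟩ := hd a a.2 (fun h => h12 (Fin.ext h))
          have hbD : some (i, (⟨b, hb⟩ : Fin 14)) ∈ D := (hR ⟨b, hb⟩).2.2 hb2
          by_cases hab : (⟨b, hb⟩ : Fin 14) = a
          · left
            rw [← hab]
            exact hbD
          · right
            refine ⟨_, hbD, rfl, hab, ?_⟩
            have := N_symm a ⟨b, hb⟩
            rw [← this]
            exact hb1
        | step _ _ f x0 h0 hf hd =>
          have h14 := (fr_iff.1 h0).1
          have := (rep_fr hR ⟨x0, h14⟩).1 h0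
          rcases hno (some (i, ⟨x0, h14⟩)) with h | h
          · exact absurd h this.2
          · exact absurd h this.1
  | succ n ih =>
    intro D S hn hI hcard
    by_cases hex : ∃ w, w ∉ D ∧ w ∉ S
    · right
      refine ⟨hex, ?_⟩
      rintro (_ | ⟨i, x⟩) hwD hwS
      · exact absurd hn hwD
      · obtain ⟨X, Y, hR, hW⟩ := hI i
        have hx : fr X Y x = true := (rep_fr hR x).2 ⟨hwS, hwD⟩
        cases hW with
        | done _ _ h hd =>
          rw [h x] at hx
          exact absurd hx (by simp)
        | step _ _ f x0 h0 hf hd =>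
          have hR' := rep_insS hR x
          have hfx := hf x hx
          have h14 := (fr_iff.1 hfx).1
          have hv := (rep_fr hR' ⟨f x, h14⟩).1 hfx
          right
          refine ⟨some (i, ⟨f x, h14⟩), hv.2, hv.1, ?_⟩
          refine ih _ _ (Finset.mem_insert_of_mem hn) ?_ ?_
          · intro j
            by_cases hj : j = i
            · subst hj
              exact ⟨_, _, rep_insD hR' ⟨f x, h14⟩, hd x hx⟩
            · obtain ⟨X', Y', hR2, hW2⟩ := hI j
              refine ⟨X', Y', rep_othD (rep_othS hR2 _ ?_) _ ?_, hW2⟩
              · intro a h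
                rw [Option.some_inj, Prod.mk.injEq] at h
                exact hj h.1.symm
              · intro a h
                rw [Option.some_inj, Prod.mk.injEq] at h
                exact hj h.1.symm
          · have hsub : fre (insert (some (i, (⟨f x, h14⟩ : Fin 14))) D) (insert (some (i, x)) S) ⊆
                ((fre D S).erase (some (i, x))).erase (some (i, (⟨f x, h14⟩ : Fin 14))) := by
              intro v hv'
              rw [mem_fre, Finset.mem_insert, Finset.mem_insert, not_or, not_or] at hv'
              rw [Finset.mem_erase, Finset.mem_erase, mem_fre]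
              exact ⟨hv'.1.1, hv'.2.1, hv'.1.2, hv'.2.2⟩
            have h1 : some (i, x) ∈ fre D S := mem_fre.2 ⟨hwD, hwS⟩
            have h2 : some (i, (⟨f x, h14⟩ : Fin 14)) ∈ (fre D S).erase (some (i, x)) := by
              rw [Finset.mem_erase, mem_fre]
              refine ⟨fun h => hv.1 ?_, hv.2, fun h => hv.1 (Finset.mem_insert_of_mem h)⟩
              rw [h]
              exact Finset.mem_insert_self _ _
            have h3 := Finset.card_le_card hsub
            rw [Finset.card_erase_of_mem h2, Finset.card_erase_of_mem h1] at h3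
            omega
    · left
      have := ih D S hn hI (by
        have : fre D S = ∅ := by
          rw [Finset.eq_empty_iff_forall_notMem]
          intro v hv
          exact hex ⟨v, mem_fre.1 hv⟩
        rw [this]
        simp)
      rcases this with h | h
      · exact h
      · exact absurd h.1 hex

lemma upper : WinsIn (GG c) (7 * c + 1) ∅ ∅ := by
  right
  refine ⟨none, by simp, by simp, ?_⟩
  refine upper_step (7 * c) _ _ (by simp) (fun i => ⟨0, 0, rep_zero (by simp), dw_D⟩) ?_
  have h1 : fre (insert none ∅ : Finset (VV c)) ∅ = Finset.univ.erase none := by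
    ext v
    rw [mem_fre]
    simp
  rw [h1, Finset.card_erase_of_mem (Finset.mem_univ _), Finset.card_univ, Fintype.card_option,
    Fintype.card_prod, Fintype.card_fin, Fintype.card_fin]
  omega

lemma adj_some {i : Fin c} {a b : Fin 14} (h : a ≠ b ∧ (N a).testBit b = true) :
    (GG c).Adj (some (i, a)) (some (i, b)) := ⟨rfl, h.1, h.2⟩

lemma conn : (GG c).Connected := by
  have h12 : ∀ i : Fin c, (GG c).Reachable (some (i, 12)) none := fun i => by
    have : (GG c).Adj (some (i, 12)) none := (rfl : (12 : Fin 14) = 12)
    exact this.reachable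
  have key : ∀ (i : Fin c) (a b : Fin 14), (GG c).Reachable (some (i, b)) none →
      (a ≠ b ∧ (N a).testBit b = true) → (GG c).Reachable (some (i, a)) none := by
    intro i a b hb h
    exact (adj_some h).reachable.trans hb
  have hall : ∀ (i : Fin c) (a : Fin 14), (GG c).Reachable (some (i, a)) none := by
    intro i
    have r12 := h12 i
    have r2 := key i 2 12 r12 (by decide +kernel)
    have r9 := key i 9 2 r2 (by decide +kernel)
    have r13 := key i 13 2 r2 (by decide +kernel)
    have r5 := key i 5 9 r9 (by decide +kernel)
    have r1 := key i 1 13 r13 (by decide +kernel)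
    have r4 := key i 4 13 r13 (by decide +kernel)
    have r6 := key i 6 1 r1 (by decide +kernel)
    have r7 := key i 7 4 r4 (by decide +kernel)
    have r8 := key i 8 4 r4 (by decide +kernel)
    have r0 := key i 0 7 r7 (by decide +kernel)
    have r3 := key i 3 7 r7 (by decide +kernel)
    have r10 := key i 10 3 r3 (by decide +kernel)
    have r11 := key i 11 3 r3 (by decide +kernel)
    intro a
    fin_cases a
    · exact r0
    · exact r1
    · exact r2
    · exact r3
    · exact r4
    · exact r5
    · exact r6
    · exact r7
    · exact r8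
    · exact r9
    · exact r10
    · exact r11
    · exact r12
    · exact r13
  have hall' : ∀ v : VV c, (GG c).Reachable v none := by
    rintro (_ | ⟨i, a⟩)
    · exact SimpleGraph.Reachable.refl _
    · exact hall i a
  exact ⟨fun u v => (hall' u).trans (hall' v).symm⟩

theorem main (hc : 3 ≤ c) : gammaMB (GG c) = ((7 * c + 1 : ℕ) : ℕ∞) := by
  unfold gammaMB
  apply le_antisymm
  · exact sInf_le ⟨_, rfl, upper⟩
  · refine le_sInf ?_
    rintro k ⟨m, rfl, hm⟩
    by_contra h
    rw [not_le, Nat.cast_lt] at h
    exact lower hc m (by omega) hm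

end Pool.Agent.Helper65.MBD
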